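import Pool.Agent.Y186.MS.Stm

/-! Project MS (MP_4c43cc_an), job MS-MOB: change of the centre (`S_MOB`). -/

open Complex Metric Set Filter Topology
open scoped ComplexConjugate
open Pool.Agent.Results.MP_4c43cc_an.ShiftSet

namespace Pool.Agent.Y401.MS

open Pool.Agent.Y186.MS

/-- the rotation factor -/
noncomputable def rot (b w : ℂ) : ℂ := (1 - b * conj w) / (1 - conj b * w)

lemma rot_norm {b w : ℂ} (hb : ‖b‖ < 1) (hw : ‖w‖ < 1) : ‖rot b w‖ = 1 := by
  have h1 : 1 - b * conj w = conj (1 - conj b * w) := by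
    simp only [map_sub, map_one, map_mul, conj_conj]
  have h2 := mob_den hb hw.le
  rw [rot, norm_div, h1, RCLike.norm_conj]
  exact div_self (norm_ne_zero_iff.2 h2)

lemma alg (A D q z : ℂ) (hA : A ≠ 0) (hD : D ≠ 0) :
    1 - q / A * (A / D * z) = (D - z * q) / D := by
  field_simp

lemma mob_mob {b w z : ℂ} (hb : ‖b‖ < 1) (hw : ‖w‖ < 1) (hz : ‖z‖ < 1) :
    mob (-b) (mob w z) = mob (mob b w) (rot b w * z) := by
  have hD1 : 1 - conj w * z ≠ 0 := mob_den hw hz.le
  have hD2 : 1 - conj b * w ≠ 0 := mob_den hb hw.le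
  have hD2' : 1 - b * conj w ≠ 0 := by
    have h1 : 1 - b * conj w = conj (1 - conj b * w) := by
      simp only [map_sub, map_one, map_mul, conj_conj]
    rw [h1]
    exact (map_ne_zero _).2 hD2
  have e1 : mob (-b) (mob w z) =
      ((1 - b * conj w) * z - (w - b)) / ((1 - conj b * w) - z * (conj w - conj b)) := by
    have h1 : (z - w) / (1 - conj w * z) - -b =
        ((1 - b * conj w) * z - (w - b)) / (1 - conj w * z) := by
      rw [eq_div_iff hD1, sub_mul, div_mul_cancel₀ _ hD1]
      ring
    have h2 : 1 - conj (-b) * ((z - w) / (1 - conj w * z)) =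
        ((1 - conj b * w) - z * (conj w - conj b)) / (1 - conj w * z) := by
      rw [map_neg, eq_div_iff hD1, sub_mul, mul_assoc, div_mul_cancel₀ _ hD1]
      ring
    change ((z - w) / (1 - conj w * z) - -b) / (1 - conj (-b) * ((z - w) / (1 - conj w * z))) = _
    rw [h1, h2, div_div_div_cancel_right₀ hD1]
  have e2 : mob (mob b w) (rot b w * z) =
      ((1 - b * conj w) * z - (w - b)) / ((1 - conj b * w) - z * (conj w - conj b)) := by
    have h1 : rot b w * z - (w - b) / (1 - conj b * w) =
        ((1 - b * conj w) * z - (w - b)) / (1 - conj b * w) := by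
      rw [rot, div_mul_eq_mul_div, ← sub_div]
    have h2 : 1 - conj ((w - b) / (1 - conj b * w)) * (rot b w * z) =
        ((1 - conj b * w) - z * (conj w - conj b)) / (1 - conj b * w) := by
      have h3 : conj ((w - b) / (1 - conj b * w)) = (conj w - conj b) / (1 - b * conj w) := by
        simp only [map_div₀, map_sub, map_one, map_mul, conj_conj]
      rw [h3, rot]
      exact alg _ _ _ _ hD2' hD2
    change (rot b w * z - (w - b) / (1 - conj b * w)) /
      (1 - conj ((w - b) / (1 - conj b * w)) * (rot b w * z)) = _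
    rw [h1, h2, div_div_div_cancel_right₀ hD2]
  rw [e1, e2]

theorem t_MOB : S_MOB := by
  intro g hg b w hb hw m
  have hv : ‖mob b w‖ < 1 := mob_norm_lt hb hw
  have hc := rot_norm hb hw
  have hh : DifferentiableOn ℂ (fun z => g (mob (mob b w) z)) (ball 0 1) := by
    refine hg.comp (fun z hz => ?_) fun z hz => ?_
    · exact (mob_diff hv (mem_ball_zero_iff.1 hz).le).differentiableWithinAt
    · exact mem_ball_zero_iff.2 (mob_norm_lt hv (mem_ball_zero_iff.1 hz))
  have key : taylorCoeff (fun z => g (mob (-b) (mob w z))) m =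
      taylorCoeff (fun z => g (mob (mob b w) z)) m * rot b w ^ m := by
    refine coeff_unique (C := fun m => taylorCoeff (fun z => g (mob (mob b w) z)) m *
      rot b w ^ m) (fun z hz => ?_) m
    have hz' := mem_ball_zero_iff.1 hz
    have hcz : rot b w * z ∈ ball (0 : ℂ) 1 := by
      rw [mem_ball_zero_iff, norm_mul, hc, one_mul]
      exact hz'
    have h1 := taylorCoeff_hasSum hh hcz
    rw [← mob_mob hb hw hz'] at h1
    have e : (fun n => taylorCoeff (fun z => g (mob (mob b w) z)) n * rot b w ^ n * z ^ n) =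
        fun n => taylorCoeff (fun z => g (mob (mob b w) z)) n * (rot b w * z) ^ n := by
      ext n
      rw [mul_pow]
      ring
    rw [e]
    exact h1
  change ‖taylorCoeff (fun z => g (mob (-b) (mob w z))) m‖ =
    ‖taylorCoeff (fun z => g (mob (mob b w) z)) m‖
  rw [key, norm_mul, norm_pow, hc, one_pow, mul_one]

end Pool.Agent.Y401.MS

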